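import Pool.Agent.Lib.P41.Neg

set_option autoImplicit false

namespace Pool.Agent.Results.MP_daa8b9_co.ExactModulus

open Pool.Agent.Lib.MP_daa8b9_co

/-- `gcd(F_G(4), n)` divides `P_G(-1)` for every connected plane cubic graph `G` exactly when
`n` divides 360.  The case `n = 0` is the negation of Szegedy's question. -/
theorem result (n : ℕ) :
    (∀ (E : Type) [Fintype E] [DecidableEq E] (σ : Equiv.Perm (E × Bool)),
      Cubic σ → Connected σ → Plane σ →
        (Nat.gcd (colourings σ) n : ℤ) ∣ penrose σ (-1)) ↔ n ∣ 360 := by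
  constructor
  · intro h
    by_contra hn
    obtain ⟨q, hq, hq'⟩ := Pool.Agent.Lib.P41.bad_divisor n hn
    obtain ⟨E, _, _, σ, h1, h2, h3, h4, h5⟩ := Pool.Agent.Lib.P41.negative q hq'
    exact h5 ((Int.natCast_dvd_natCast.2 (Nat.dvd_gcd h4 hq)).trans (h E σ h1 h2 h3))
  · intro hn E _ _ σ h1 h2 h3
    exact Pool.Agent.Lib.P41.positive σ h1 h2 h3 _ ((Nat.gcd_dvd_right _ _).trans hn)
      (Nat.gcd_dvd_left _ _)

end Pool.Agent.Results.MP_daa8b9_co.ExactModulus
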