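import Pool.Agent.Lib.MP_daa8b9_co.Main

set_option autoImplicit false

namespace Pool.Agent.Results.MP_daa8b9_co.NotDivides

open Pool.Agent.Lib.MP_daa8b9_co

/-- A connected plane cubic graph without loops whose number of 3-edge-colourings does not
divide the value of its Penrose polynomial at -1. -/
theorem result :
    ∃ (E : Type) (_ : Fintype E) (_ : DecidableEq E) (σ : Equiv.Perm (E × Bool)),
      Cubic σ ∧ Connected σ ∧ Plane σ ∧ (∀ e : E, ¬ σ.SameCycle (e, false) (e, true)) ∧
      colourings σ = 54 ∧ penrose σ (-1) = -78966 ∧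
      ¬ ((colourings σ : ℤ) ∣ penrose σ (-1)) := by
  refine ⟨Fin 21, inferInstance, inferInstance, sig, cubic_sig, connected_sig, plane_sig,
    loopless_sig, colourings_val, penrose_val, ?_⟩
  rw [colourings_val, penrose_val]
  norm_num

end Pool.Agent.Results.MP_daa8b9_co.NotDivides
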